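import Mathlib

set_option autoImplicit false
open Set Metric Topology

namespace Pool.Agent.H97.MP36cdb9

section UnifAvg
variable {E : Type*} [NormedAddCommGroup E] [NormedSpace ℝ E]

/-- uniform averages of finite nonempty lists of elements of `S`. -/
def UA (S : Set E) : Set E :=
  {P | ∃ l : List E, l ≠ [] ∧ (∀ z ∈ l, z ∈ S) ∧ P = (1 / (l.length : ℝ)) • l.sum}

omit [NormedSpace ℝ E] in
lemma list_flatten_replicate_sum (n : ℕ) (l : List E) :
    ((List.replicate n l).flatten).sum = n • l.sum := by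
  induction n with
  | zero => simp
  | succ n ih => simp [List.replicate_succ, ih, succ_nsmul, add_comm]

lemma UA_rat_comb {S : Set E} {a b : E} (ha : a ∈ UA S) (hb : b ∈ UA S) (m n : ℕ)
    (hn : 0 < n) (hmn : m ≤ n) :
    ((m : ℝ) / n) • a + (((n - m : ℕ) : ℝ) / n) • b ∈ UA S := by
  obtain ⟨la, hla0, hla, rfl⟩ := ha
  obtain ⟨lb, hlb0, hlb, rfl⟩ := hb
  have hA : 0 < la.length := List.length_pos_iff.mpr hla0
  have hB : 0 < lb.length := List.length_pos_iff.mpr hlb0
  set L : List E := (List.replicate (m * lb.length) la).flatten ++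
    (List.replicate ((n - m) * la.length) lb).flatten with hL
  have hlen : L.length = n * la.length * lb.length := by
    simp only [hL, List.length_append, List.length_flatten, List.map_replicate,
      List.sum_replicate, smul_eq_mul]
    have : n = m + (n - m) := by omega
    conv_rhs => rw [this]
    ring
  have hsum : L.sum = (m * lb.length) • la.sum + ((n - m) * la.length) • lb.sum := by
    simp only [hL, List.sum_append, list_flatten_replicate_sum]
  refine ⟨L, ?_, ?_, ?_⟩
  · rw [← List.length_pos_iff, hlen]; positivity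
  · intro z hz
    rw [hL, List.mem_append] at hz
    rcases hz with hz | hz
    · rw [List.mem_flatten] at hz
      obtain ⟨l, hl, hz⟩ := hz
      rw [List.eq_of_mem_replicate hl] at hz
      exact hla z hz
    · rw [List.mem_flatten] at hz
      obtain ⟨l, hl, hz⟩ := hz
      rw [List.eq_of_mem_replicate hl] at hz
      exact hlb z hz
  · rw [hlen, hsum]
    have hA' : (la.length : ℝ) ≠ 0 := by positivity
    have hB' : (lb.length : ℝ) ≠ 0 := by positivity
    have hn' : (n : ℝ) ≠ 0 := by positivity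
    rw [smul_add, smul_smul, smul_smul, ← Nat.cast_smul_eq_nsmul ℝ, ← Nat.cast_smul_eq_nsmul ℝ,
      smul_smul, smul_smul]
    congr 2
    · push_cast; field_simp
    · push_cast; field_simp

lemma closure_UA_convex (S : Set E) : Convex ℝ (closure (UA S)) := by
  intro P hP P' hP' s t hs ht hst
  rw [Metric.mem_closure_iff] at hP hP' ⊢
  intro η hη
  obtain ⟨a, ha, hPa⟩ := hP (η / 4) (by positivity)
  obtain ⟨b, hb, hPb⟩ := hP' (η / 4) (by positivity)
  -- choose n large
  obtain ⟨n, hn⟩ := exists_nat_gt ((‖a‖ + ‖b‖) / (η / 4) + 1)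
  have hn0 : 0 < n := by
    have : (0:ℝ) < n := lt_trans (by positivity) hn
    exact_mod_cast this
  have hn0' : (0:ℝ) < n := by exact_mod_cast hn0
  set m : ℕ := ⌊s * n⌋₊ with hm
  have hsn : 0 ≤ s * n := by positivity
  have hm1 : (m : ℝ) ≤ s * n := Nat.floor_le hsn
  have hm2 : s * n < m + 1 := Nat.lt_floor_add_one _
  have hs1 : s ≤ 1 := by linarith
  have hmn : m ≤ n := by
    have : (m : ℝ) ≤ n := by nlinarith
    exact_mod_cast this
  refine ⟨_, UA_rat_comb ha hb m n hn0 hmn, ?_⟩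
  have e1 : |s - (m : ℝ) / n| ≤ 1 / n := by
    rw [abs_le]
    constructor
    · have : (m : ℝ) / n ≤ s := by rw [div_le_iff₀ hn0']; exact hm1
      have : (0:ℝ) ≤ 1 / n := by positivity
      linarith
    · have : s - (m : ℝ) / n = (s * n - m) / n := by field_simp
      rw [this]
      gcongr
      linarith
  have e2 : |t - ((n - m : ℕ) : ℝ) / n| ≤ 1 / n := by
    have : t - ((n - m : ℕ) : ℝ) / n = -(s - (m : ℝ) / n) := by
      rw [Nat.cast_sub hmn]
      have : t = 1 - s := by linarith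
      rw [this]
      field_simp
      ring
    rw [this, abs_neg]
    exact e1
  rw [dist_eq_norm] at hPa hPb ⊢
  have key : s • P + t • P' - (((m : ℝ) / n) • a + (((n - m : ℕ) : ℝ) / n) • b)
      = s • (P - a) + t • (P' - b) + ((s - (m : ℝ) / n) • a + (t - ((n - m : ℕ) : ℝ) / n) • b) := by
    simp only [smul_sub, sub_smul]
    abel
  rw [key]
  have ht1 : t ≤ 1 := by linarith
  have b1 : ‖s • (P - a)‖ ≤ η / 4 := by
    rw [norm_smul, Real.norm_of_nonneg hs]
    have := norm_nonneg (P - a)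
    nlinarith
  have b2 : ‖t • (P' - b)‖ ≤ η / 4 := by
    rw [norm_smul, Real.norm_of_nonneg ht]
    have := norm_nonneg (P' - b)
    nlinarith
  have b3 : ‖(s - (m : ℝ) / n) • a‖ + ‖(t - ((n - m : ℕ) : ℝ) / n) • b‖ < η / 4 := by
    rw [norm_smul, norm_smul, Real.norm_eq_abs, Real.norm_eq_abs]
    have : (‖a‖ + ‖b‖) / n < η / 4 := by
      rw [div_lt_iff₀ hn0']
      have h4 : (‖a‖ + ‖b‖) / (η / 4) < n := by linarith
      rw [div_lt_iff₀ (by positivity)] at h4
      linarith
    calc |s - (m : ℝ) / n| * ‖a‖ + |t - ((n - m : ℕ) : ℝ) / n| * ‖b‖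
        ≤ (1 / n) * ‖a‖ + (1 / n) * ‖b‖ := by gcongr
      _ = (‖a‖ + ‖b‖) / n := by ring
      _ < η / 4 := this
  calc ‖s • (P - a) + t • (P' - b) + ((s - (m : ℝ) / n) • a + (t - ((n - m : ℕ) : ℝ) / n) • b)‖
      ≤ ‖s • (P - a) + t • (P' - b)‖ + ‖((s - (m : ℝ) / n) • a + (t - ((n - m : ℕ) : ℝ) / n) • b)‖ :=
        norm_add_le _ _
    _ ≤ (‖s • (P - a)‖ + ‖t • (P' - b)‖) + (‖(s - (m : ℝ) / n) • a‖ + ‖(t - ((n - m : ℕ) : ℝ) / n) • b‖) := by
        gcongr <;> exact norm_add_le _ _
    _ < η := by linarith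

lemma convexHull_subset_closure_UA (S : Set E) : convexHull ℝ S ⊆ closure (UA S) := by
  apply convexHull_min _ (closure_UA_convex S)
  intro z hz
  apply subset_closure
  exact ⟨[z], by simp, by simpa using hz, by simp⟩

/-- uniform averages indexed by `Fin (Q+1)` are dense in the convex hull. -/
theorem exists_unifAvg {S : Set E} {P : E} (hP : P ∈ closure (convexHull ℝ S)) {η : ℝ} (hη : 0 < η) :
    ∃ (Q : ℕ) (z : Fin (Q + 1) → E), (∀ i, z i ∈ S) ∧
      ‖(1 / ((Q : ℝ) + 1)) • ∑ i, z i - P‖ < η := by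
  have hP' : P ∈ closure (UA S) := by
    have : closure (convexHull ℝ S) ⊆ closure (UA S) :=
      closure_minimal (convexHull_subset_closure_UA S) isClosed_closure
    exact this hP
  rw [Metric.mem_closure_iff] at hP'
  obtain ⟨b, ⟨l, hl0, hl, rfl⟩, hb⟩ := hP' η hη
  obtain ⟨Q, hQ⟩ : ∃ Q, l.length = Q + 1 :=
    ⟨l.length - 1, by have := List.length_pos_iff.mpr hl0; omega⟩
  refine ⟨Q, fun i => l.get (i.cast hQ.symm), fun i => hl _ (List.get_mem _ _), ?_⟩
  have hs : ∑ i : Fin (Q + 1), l.get (i.cast hQ.symm) = l.sum := by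
    rw [← List.sum_ofFn]
    congr 1
    apply List.ext_get
    · simp [hQ]
    · intro n h1 h2
      simp [-List.ofFn_succ]
  rw [hs, norm_sub_rev, ← dist_eq_norm]
  have : (l.length : ℝ) = (Q : ℝ) + 1 := by rw [hQ]; push_cast; ring
  rw [← this]
  exact hb

end UnifAvg

end Pool.Agent.H97.MP36cdb9
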