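import Mathlib
import Pool.Agent.H.MP_36cdb9_an.H97.UnifAvg

set_option autoImplicit false
open Set Metric Topology

namespace Pool.Agent.H97.MP36cdb9

variable {X : Type*} [NormedAddCommGroup X] [NormedSpace ℝ X]

/-- weak-star compactness, in the form of the frozen statement -/
def WC (A : Set (X →L[ℝ] ℝ)) : Prop :=
  @IsCompact (X →L[ℝ] ℝ)
    (TopologicalSpace.induced (fun (f : X →L[ℝ] ℝ) (x : X) => f x) inferInstance) A

def WCl (A : Set (X →L[ℝ] ℝ)) : Prop :=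
  @IsClosed (X →L[ℝ] ℝ)
    (TopologicalSpace.induced (fun (f : X →L[ℝ] ℝ) (x : X) => f x) inferInstance) A

lemma WC.inter {A B : Set (X →L[ℝ] ℝ)} (hA : WC A) (hB : WCl B) : WC (A ∩ B) := by
  unfold WC WCl at *
  exact @IsCompact.inter_right _ (TopologicalSpace.induced (fun (f : X →L[ℝ] ℝ) (x : X) => f x)
    inferInstance) _ _ hA hB

lemma tw_eval_cont (x : X) : @Continuous (X →L[ℝ] ℝ) ℝ
    (TopologicalSpace.induced (fun (f : X →L[ℝ] ℝ) (x : X) => f x) inferInstance) inferInstance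
    (fun f => f x) := by
  exact @Continuous.comp _ _ _
    (TopologicalSpace.induced (fun (f : X →L[ℝ] ℝ) (x : X) => f x) inferInstance) _ _ _ _
    (continuous_apply x) continuous_induced_dom

lemma WCl_preimage (x : X) {s : Set ℝ} (hs : IsClosed s) : WCl {f : X →L[ℝ] ℝ | f x ∈ s} :=
  @IsClosed.preimage _ _ (TopologicalSpace.induced (fun (f : X →L[ℝ] ℝ) (x : X) => f x)
    inferInstance) _ _ (tw_eval_cont x) _ hs

lemma WCl_iInter {ι : Sort*} {s : ι → Set (X →L[ℝ] ℝ)} (h : ∀ i, WCl (s i)) : WCl (⋂ i, s i) :=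
  @isClosed_iInter _ _ (TopologicalSpace.induced (fun (f : X →L[ℝ] ℝ) (x : X) => f x)
    inferInstance) _ h

lemma WC.exists_max {A : Set (X →L[ℝ] ℝ)} (hA : WC A) (hne : A.Nonempty) (x : X) :
    ∃ k ∈ A, ∀ a ∈ A, a x ≤ k x := by
  obtain ⟨k, hk, hmax⟩ := @IsCompact.exists_isMaxOn ℝ (X →L[ℝ] ℝ) _ _
    (TopologicalSpace.induced (fun (f : X →L[ℝ] ℝ) (x : X) => f x) inferInstance) _ A hA hne
    (fun f => f x) (@Continuous.continuousOn _ _
      (TopologicalSpace.induced (fun (f : X →L[ℝ] ℝ) (x : X) => f x) inferInstance) _ _ _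
      (tw_eval_cont x))
  exact ⟨k, hk, fun a ha => hmax ha⟩

lemma WC.bdd [CompleteSpace X] {A : Set (X →L[ℝ] ℝ)} (hA : WC A) :
    ∃ R : ℝ, 0 < R ∧ ∀ a ∈ A, ‖a‖ ≤ R := by
  have h : ∀ x : X, ∃ C, ∀ i : A, ‖(i : X →L[ℝ] ℝ) x‖ ≤ C := by
    intro x
    rcases A.eq_empty_or_nonempty with rfl | hne
    · exact ⟨0, fun i => absurd i.2 (Set.notMem_empty _)⟩
    obtain ⟨k, hk, h1⟩ := hA.exists_max hne x
    obtain ⟨k', hk', h2⟩ := hA.exists_max hne (-x)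
    refine ⟨max (k x) (k' (-x)), fun i => ?_⟩
    rw [Real.norm_eq_abs, abs_le']
    have := h2 i i.2
    rw [map_neg] at this
    exact ⟨le_max_of_le_left (h1 i i.2), le_max_of_le_right this⟩
  obtain ⟨C, hC⟩ := banach_steinhaus h
  refine ⟨max C 1, by positivity, fun a ha => le_max_of_le_left (hC ⟨a, ha⟩)⟩

/-- points of `K` whose value at `x` is within `δ` of the maximum. -/
def near (K : Set (X →L[ℝ] ℝ)) (x : X) (δ : ℝ) : Set (X →L[ℝ] ℝ) :=
  {k | k ∈ K ∧ ∀ a ∈ K, a x ≤ k x + δ}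

lemma near_WC {K : Set (X →L[ℝ] ℝ)} (hK : WC K) (x : X) (δ : ℝ) : WC (near K x δ) := by
  have : near K x δ = K ∩ ⋂ a : K, {k : X →L[ℝ] ℝ | k x ∈ Ici ((a : X →L[ℝ] ℝ) x - δ)} := by
    ext k
    simp only [near, Set.mem_ofPred_eq, mem_inter_iff, mem_iInter, mem_Ici, Subtype.forall]
    constructor
    · rintro ⟨h1, h2⟩
      exact ⟨h1, fun a ha => by linarith [h2 a ha]⟩
    · rintro ⟨h1, h2⟩
      exact ⟨h1, fun a ha => by linarith [h2 a ha]⟩
  rw [this]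
  exact hK.inter (WCl_iInter fun a => WCl_preimage x isClosed_Ici)

lemma near_nonempty {K : Set (X →L[ℝ] ℝ)} (hK : WC K) (hne : K.Nonempty) (x : X) {δ : ℝ}
    (hδ : 0 ≤ δ) : (near K x δ).Nonempty := by
  obtain ⟨k, hk, h⟩ := hK.exists_max hne x
  exact ⟨k, hk, fun a ha => by linarith [h a ha]⟩

section Step

variable {K : Set (X →L[ℝ] ℝ)} {ε R : ℝ}

/-- Step 1: slices are large. -/
lemma slice_large (hR : ∀ a ∈ K, ‖a‖ ≤ R) (hne : K.Nonempty)
    (hnd : ∀ f ∈ K, f ∈ closure (convexHull ℝ (K \ Metric.ball f ε)))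
    (L : (X →L[ℝ] ℝ) →L[ℝ] ℝ) {δ : ℝ} (hδ : 0 < δ) :
    ∃ p ∈ K, ∃ q ∈ K, ε ≤ ‖p - q‖ ∧ ∀ k ∈ K, L k < L p + δ ∧ L k < L q + δ := by
  have hbdd : BddAbove (L '' K) := by
    refine ⟨‖L‖ * R, ?_⟩
    rintro _ ⟨a, ha, rfl⟩
    calc L a ≤ ‖L a‖ := le_abs_self _
      _ ≤ ‖L‖ * ‖a‖ := L.le_opNorm a
      _ ≤ ‖L‖ * R := by gcongr; exact hR a ha
  have hne' : (L '' K).Nonempty := hne.image L
  set M := sSup (L '' K) with hM
  obtain ⟨_, ⟨p, hp, rfl⟩, hpM⟩ := exists_lt_of_lt_csSup hne' (show M - δ < sSup (L '' K) by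
    rw [← hM]; linarith)
  have hle : ∀ k ∈ K, L k ≤ M := fun k hk => le_csSup hbdd ⟨k, hk, rfl⟩
  by_contra hcon
  push Not at hcon
  have h1 : K \ ball p ε ⊆ {a | L a ≤ M - δ} := by
    rintro a ⟨ha, hab⟩
    by_contra hh
    simp only [Set.mem_ofPred_eq, not_le] at hh
    have hd : ε ≤ ‖p - a‖ := by
      simp only [mem_ball, not_lt] at hab
      rw [← dist_eq_norm, dist_comm]; exact hab
    obtain ⟨k, hk, hk2⟩ := hcon p hp a ha hd
    have := hk2 (by linarith [hle k hk])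
    linarith [hle k hk]
  have hcl : IsClosed {a | L a ≤ M - δ} := isClosed_le L.continuous continuous_const
  have hcv : Convex ℝ {a | L a ≤ M - δ} := convex_halfSpace_le L.toLinearMap.isLinear _
  have := closure_minimal (convexHull_min h1 hcv) hcl (hnd p hp)
  simp only [Set.mem_ofPred_eq] at this
  linarith

/-- Step 2: the bi-flat lemma. -/
lemma biflat (hR0 : 0 < R) (hR : ∀ a ∈ K, ‖a‖ ≤ R) (hne : K.Nonempty)
    (hnd : ∀ f ∈ K, f ∈ closure (convexHull ℝ (K \ Metric.ball f ε)))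
    (x : X) {δ : ℝ} (hδ : 0 < δ) {η : ℝ} (hη : 0 < η) :
    ∃ δ' > 0, ∀ k ∈ near K x δ', ∃ P ∈ convexHull ℝ
      {pq : (X →L[ℝ] ℝ) × (X →L[ℝ] ℝ) | pq.1 ∈ near K x δ ∧ pq.2 ∈ near K x δ ∧
        ε ≤ ‖pq.1 - pq.2‖}, ‖P.1 - k‖ < η ∧ ‖P.2 - k‖ < η := by
  set lam : ℝ := δ / (4 * R) with hlam
  have hlam0 : 0 < lam := by positivity
  set δ' : ℝ := min (δ / 8) (lam * η / 4) with hδ'
  have hδ'0 : 0 < δ' := lt_min (by positivity) (by positivity)
  have hd1 : δ' ≤ δ / 8 := min_le_left _ _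
  have hd2 : δ' ≤ lam * η / 4 := min_le_right _ _
  refine ⟨δ', hδ'0, fun k hk => ?_⟩
  set S : Set ((X →L[ℝ] ℝ) × (X →L[ℝ] ℝ)) :=
    {pq : (X →L[ℝ] ℝ) × (X →L[ℝ] ℝ) | pq.1 ∈ near K x δ ∧ pq.2 ∈ near K x δ ∧
        ε ≤ ‖pq.1 - pq.2‖} with hS
  by_contra hcon
  push Not at hcon
  have hdisj : Disjoint (ball ((k, k) : (X →L[ℝ] ℝ) × (X →L[ℝ] ℝ)) η) (convexHull ℝ S) := by
    rw [Set.disjoint_left]
    intro P hP1 hP2
    rw [mem_ball, dist_eq_norm, Prod.norm_def, max_lt_iff] at hP1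
    exact absurd (hcon P hP2 hP1.1) (not_le.mpr hP1.2)
  obtain ⟨f, s, hf1, hf2⟩ := geometric_hahn_banach_open (convex_ball _ _) isOpen_ball
    (convex_convexHull ℝ S) hdisj
  have hf2' : ∀ b ∈ S, s ≤ f b := fun b hb => hf2 b (subset_convexHull ℝ S hb)
  -- the norm gain
  have hgain : f (k, k) + η * ‖f‖ ≤ s := by
    by_contra hh
    push Not at hh
    have hc0 : f (k, k) < s := hf1 _ (mem_ball_self hη)
    have h3 : (s - f (k, k)) / η < ‖f‖ := by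
      rw [div_lt_iff₀ hη]; linarith
    obtain ⟨z, hz1, hz2⟩ := ContinuousLinearMap.exists_lt_apply_of_lt_opNorm f h3
    have h4 : ∃ z' : (X →L[ℝ] ℝ) × (X →L[ℝ] ℝ), ‖z'‖ < 1 ∧ (s - f (k, k)) / η < f z' := by
      rcases le_total 0 (f z) with h0 | h0
      · exact ⟨z, hz1, by rwa [Real.norm_of_nonneg h0] at hz2⟩
      · refine ⟨-z, by rwa [norm_neg], ?_⟩
        rw [Real.norm_of_nonpos h0] at hz2
        rwa [map_neg]
    obtain ⟨z', hz1', hz2'⟩ := h4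
    have h5 : (k, k) + η • z' ∈ ball ((k, k) : (X →L[ℝ] ℝ) × (X →L[ℝ] ℝ)) η := by
      rw [mem_ball, dist_eq_norm, add_sub_cancel_left, norm_smul, Real.norm_of_nonneg hη.le]
      nlinarith
    have h6 := hf1 _ h5
    rw [map_add, map_smul, smul_eq_mul] at h6
    rw [div_lt_iff₀ hη] at hz2'
    nlinarith
  set H : (X →L[ℝ] ℝ) →L[ℝ] ℝ := f.comp ((ContinuousLinearMap.id ℝ (X →L[ℝ] ℝ)).prod
    (ContinuousLinearMap.id ℝ (X →L[ℝ] ℝ))) with hH
  have hHa : ∀ a, H a = f (a, a) := fun a => rfl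
  -- nonempty S
  have hNpos : 0 < ‖f‖ := by
    obtain ⟨p, hp, q, hq, hpq, hmax⟩ := slice_large hR hne hnd (ContinuousLinearMap.apply ℝ ℝ x) hδ
    have hpS : (p, q) ∈ S := by
      refine ⟨⟨hp, fun a ha => ?_⟩, ⟨hq, fun a ha => ?_⟩, hpq⟩
      · have := (hmax a ha).1
        simp only [ContinuousLinearMap.apply_apply] at this
        linarith
      · have := (hmax a ha).2
        simp only [ContinuousLinearMap.apply_apply] at this
        linarith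
    rcases (norm_nonneg f).lt_or_eq with h | h
    · exact h
    exfalso
    have h0 : ∀ z, f z = 0 := by
      intro z
      have := f.le_opNorm z
      rw [← h, zero_mul] at this
      exact norm_le_zero_iff.mp this
    have h1 := hf1 _ (mem_ball_self hη)
    have h2 := hf2' _ hpS
    rw [h0] at h1 h2
    linarith
  have hHb : ∀ a ∈ K, |(lam / ‖f‖) * H a| ≤ δ / 4 := by
    intro a ha
    have h1 : |H a| ≤ ‖f‖ * R := by
      rw [hHa, ← Real.norm_eq_abs]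
      calc ‖f (a, a)‖ ≤ ‖f‖ * ‖((a, a) : (X →L[ℝ] ℝ) × (X →L[ℝ] ℝ))‖ := f.le_opNorm _
        _ = ‖f‖ * ‖a‖ := by rw [Prod.norm_def, max_self]
        _ ≤ ‖f‖ * R := by gcongr; exact hR a ha
    rw [abs_mul, abs_of_pos (by positivity)]
    calc lam / ‖f‖ * |H a| ≤ lam / ‖f‖ * (‖f‖ * R) := by gcongr
      _ = lam * R := by field_simp
      _ = δ / 4 := by rw [hlam]; field_simp
  obtain ⟨p, hp, q, hq, hpq, hmax⟩ := slice_large hR hne hnd
    (ContinuousLinearMap.apply ℝ ℝ x - (lam / ‖f‖) • H) hδ'0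
  have hLa : ∀ a, (ContinuousLinearMap.apply ℝ ℝ x - (lam / ‖f‖) • H) a =
      a x - (lam / ‖f‖) * H a := fun a => rfl
  simp only [hLa] at hmax
  have key : ∀ r ∈ K, (k x - (lam / ‖f‖) * H k < r x - (lam / ‖f‖) * H r + δ') →
      r ∈ near K x δ ∧ (lam / ‖f‖) * H r < (lam / ‖f‖) * H k + 2 * δ' := by
    intro r hr h
    have a1 := abs_le.mp (hHb r hr)
    have a2 := abs_le.mp (hHb k hk.1)
    refine ⟨⟨hr, fun a ha => ?_⟩, ?_⟩
    · have := hk.2 a ha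
      linarith
    · have := hk.2 r hr
      linarith
  obtain ⟨kp1, kp2⟩ := key p hp (hmax k hk.1).1
  obtain ⟨kq1, kq2⟩ := key q hq (hmax k hk.1).2
  have e1 := hf2' (p, q) ⟨kp1, kq1, hpq⟩
  have e2 := hf2' (q, p) ⟨kq1, kp1, by rw [norm_sub_rev]; exact hpq⟩
  have e3 : f (p, q) + f (q, p) = H p + H q := by
    rw [hHa, hHa, ← map_add, ← map_add]
    simp [add_comm]
  have e4 : 2 * H k + 2 * (η * ‖f‖) ≤ H p + H q := by
    rw [← e3]
    have : H k = f (k, k) := hHa k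
    linarith
  have e5 : (lam / ‖f‖) * (2 * H k + 2 * (η * ‖f‖)) ≤ (lam / ‖f‖) * (H p + H q) := by
    gcongr
  have e6 : (lam / ‖f‖) * (2 * (η * ‖f‖)) = 2 * (lam * η) := by field_simp
  have e7 : 2 * (lam * η) < 4 * δ' := by nlinarith
  linarith

end Step

end Pool.Agent.H97.MP36cdb9
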