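import Mathlib
import Pool.Agent.H.MP_36cdb9_an.H97.Flat

set_option autoImplicit false
open Set Metric Topology

namespace Pool.Agent.H97.MP36cdb9

variable {X : Type*} [NormedAddCommGroup X] [NormedSpace ℝ X]

/-- `k` is, up to `η`, a uniform average of `p_i` and of `q_i` for pairs `(p_i,q_i)` of `T` separated
by `y_i` (in the support-function sense). -/
def FlatAt (T : Set (X →L[ℝ] ℝ)) (c : ℝ) {Q : ℕ} (y : Fin (Q + 1) → X) (η : ℝ)
    (k : X →L[ℝ] ℝ) : Prop :=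
  ∀ u v : X, ∀ τ > 0, ∃ p q : Fin (Q + 1) → (X →L[ℝ] ℝ),
    (∀ i, p i ∈ T ∧ q i ∈ T ∧ c ≤ (p i - q i) (y i)) ∧
    k u + k v ≤ (1 / ((Q : ℝ) + 1)) * ∑ i, (p i u + q i v) + η * (‖u‖ + ‖v‖) + τ

lemma FlatAt_WCl (T : Set (X →L[ℝ] ℝ)) (c : ℝ) {Q : ℕ} (y : Fin (Q + 1) → X) (η : ℝ) :
    WCl {k | FlatAt T c y η k} := by
  have : {k | FlatAt T c y η k} = ⋂ uv : X × X, {k : X →L[ℝ] ℝ | k (uv.1 + uv.2) ∈
      {t : ℝ | ∀ τ > 0, ∃ p q : Fin (Q + 1) → (X →L[ℝ] ℝ),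
        (∀ i, p i ∈ T ∧ q i ∈ T ∧ c ≤ (p i - q i) (y i)) ∧
        t ≤ (1 / ((Q : ℝ) + 1)) * ∑ i, (p i uv.1 + q i uv.2) + η * (‖uv.1‖ + ‖uv.2‖) + τ}} := by
    ext k
    simp only [FlatAt, Set.mem_ofPred_eq, mem_iInter, Prod.forall, map_add]
  rw [this]
  refine WCl_iInter fun uv => WCl_preimage _ ?_
  rw [← closure_subset_iff_isClosed]
  intro t ht τ hτ
  rw [Metric.mem_closure_iff] at ht
  obtain ⟨t', ht', htt⟩ := ht (τ / 2) (by positivity)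
  obtain ⟨p, q, hpq, hle⟩ := ht' (τ / 2) (by positivity)
  refine ⟨p, q, hpq, ?_⟩
  rw [Real.dist_eq, abs_lt] at htt
  linarith

/-- every point deep for `x` lies in one of countably many closed flatness sets. -/
lemma cover {K : Set (X →L[ℝ] ℝ)} {ε R : ℝ} (hε : 0 < ε)
    (hR0 : 0 < R) (hR : ∀ a ∈ K, ‖a‖ ≤ R) (hne : K.Nonempty)
    (hnd : ∀ f ∈ K, f ∈ closure (convexHull ℝ (K \ Metric.ball f ε)))
    {xs : ℕ → X} (hxs : ∀ (h : X →L[ℝ] ℝ) (c : ℝ), c < ‖h‖ → ∃ j, c < h (xs j))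
    (x : X) {δ : ℝ} (hδ : 0 < δ) {η : ℝ} (hη : 0 < η) :
    ∃ δ' > 0, ∀ k ∈ near K x δ', ∃ J : (Σ Q : ℕ, (Fin (Q + 1) → ℕ)),
      FlatAt (near K x δ) (ε / 2) (fun i => xs (J.2 i)) η k := by
  obtain ⟨δ', hδ', h⟩ := biflat hR0 hR hne hnd x hδ (half_pos hη)
  refine ⟨δ', hδ', fun k hk => ?_⟩
  obtain ⟨P, hP, hP1, hP2⟩ := h k hk
  obtain ⟨Q, z, hz, hzP⟩ := exists_unifAvg (subset_closure hP) (half_pos hη)
  have hj : ∀ i, ∃ j, ε / 2 < ((z i).1 - (z i).2) (xs j) := fun i =>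
    hxs _ _ (by have := (hz i).2.2; linarith)
  choose j hj using hj
  refine ⟨⟨Q, j⟩, ?_⟩
  intro u v τ hτ
  refine ⟨fun i => (z i).1, fun i => (z i).2, fun i => ⟨(hz i).1, (hz i).2.1, (hj i).le⟩, ?_⟩
  rw [Prod.norm_def, max_lt_iff] at hzP
  have e1 : ‖(1 / ((Q : ℝ) + 1)) • ∑ i, (z i).1 - k‖ ≤ η := by
    have h1 := hzP.1
    rw [Prod.fst_sub, Prod.smul_fst, Prod.fst_sum] at h1
    calc ‖(1 / ((Q : ℝ) + 1)) • ∑ i, (z i).1 - k‖
        = ‖((1 / ((Q : ℝ) + 1)) • ∑ i, (z i).1 - P.1) + (P.1 - k)‖ := by congr 1; abel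
      _ ≤ _ := norm_add_le _ _
      _ ≤ η := by linarith
  have e2 : ‖(1 / ((Q : ℝ) + 1)) • ∑ i, (z i).2 - k‖ ≤ η := by
    have h1 := hzP.2
    rw [Prod.snd_sub, Prod.smul_snd, Prod.snd_sum] at h1
    calc ‖(1 / ((Q : ℝ) + 1)) • ∑ i, (z i).2 - k‖
        = ‖((1 / ((Q : ℝ) + 1)) • ∑ i, (z i).2 - P.2) + (P.2 - k)‖ := by congr 1; abel
      _ ≤ _ := norm_add_le _ _
      _ ≤ η := by linarith
  have f1 : k u - (1 / ((Q : ℝ) + 1)) * ∑ i, (z i).1 u ≤ η * ‖u‖ := by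
    have := (((1 / ((Q : ℝ) + 1)) • ∑ i, (z i).1 - k).le_opNorm u).trans
      (mul_le_mul_of_nonneg_right e1 (norm_nonneg u))
    rw [Real.norm_eq_abs, abs_le] at this
    have h1 := this.1
    simp only [_root_.sub_apply, _root_.smul_apply,
      _root_.sum_apply, smul_eq_mul] at h1
    linarith
  have f2 : k v - (1 / ((Q : ℝ) + 1)) * ∑ i, (z i).2 v ≤ η * ‖v‖ := by
    have := (((1 / ((Q : ℝ) + 1)) • ∑ i, (z i).2 - k).le_opNorm v).trans
      (mul_le_mul_of_nonneg_right e2 (norm_nonneg v))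
    rw [Real.norm_eq_abs, abs_le] at this
    have h1 := this.1
    simp only [_root_.sub_apply, _root_.smul_apply,
      _root_.sum_apply, smul_eq_mul] at h1
    linarith
  simp only [Finset.sum_add_distrib, mul_add]
  linarith

/-- closedness of the set of perturbations for which some maximizer lies in `C`. -/
lemma closed_maximizer {K C : Set (X →L[ℝ] ℝ)} {R : ℝ} (hR0 : 0 < R) (hR : ∀ a ∈ K, ‖a‖ ≤ R)
    (hC : WC C) (hCK : C ⊆ K) (x : X) :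
    IsClosed {x' : X | ∃ k ∈ C, ∀ a ∈ K, a (x + x') ≤ k (x + x')} := by
  rw [← closure_subset_iff_isClosed]
  intro z hz
  rw [Metric.mem_closure_iff] at hz
  have hCne : C.Nonempty := by
    obtain ⟨_, ⟨k, hk, _⟩, _⟩ := hz 1 one_pos
    exact ⟨k, hk⟩
  obtain ⟨k, hk, hmax⟩ := hC.exists_max hCne (x + z)
  refine ⟨k, hk, fun a ha => ?_⟩
  by_contra hlt
  push Not at hlt
  set g := a (x + z) - k (x + z) with hg
  have hg0 : 0 < g := by linarith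
  obtain ⟨z', ⟨k', hk', hmax'⟩, hzz⟩ := hz (g / (4 * R)) (by positivity)
  rw [dist_eq_norm, lt_div_iff₀ (by positivity)] at hzz
  have hb : ∀ b ∈ K, |b (z - z')| ≤ R * ‖z - z'‖ := fun b hb => by
    calc |b (z - z')| = ‖b (z - z')‖ := rfl
      _ ≤ ‖b‖ * ‖z - z'‖ := b.le_opNorm _
      _ ≤ R * ‖z - z'‖ := by gcongr; exact hR b hb
  have h1 := (abs_le.mp (hb a ha)).2
  have h2 := (abs_le.mp (hb k' (hCK hk'))).1
  have h3 := hmax' a ha
  have h4 := hmax k' hk'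
  simp only [map_add, map_sub] at h1 h2 h3 h4 hg
  nlinarith

/-- Step 3: the Baire step. -/
theorem flat_step [CompleteSpace X] {K : Set (X →L[ℝ] ℝ)} {ε R : ℝ} (hε : 0 < ε) (hK : WC K)
    (hR0 : 0 < R) (hR : ∀ a ∈ K, ‖a‖ ≤ R) (hne : K.Nonempty)
    (hnd : ∀ f ∈ K, f ∈ closure (convexHull ℝ (K \ Metric.ball f ε)))
    {xs : ℕ → X} (hxs : ∀ (h : X →L[ℝ] ℝ) (c : ℝ), c < ‖h‖ → ∃ j, c < h (xs j))
    (x : X) {δ : ℝ} (hδ : 0 < δ) {η : ℝ} (hη : 0 < η) :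
    ∃ (J : (Σ Q : ℕ, (Fin (Q + 1) → ℕ))) (x1 : X) (δ1 : ℝ), 0 < δ1 ∧
      ∀ k ∈ near K x1 δ1, FlatAt (near K x δ) (ε / 2) (fun i => xs (J.2 i)) η k := by
  obtain ⟨δ', hδ', hcov⟩ := cover hε hR0 hR hne hnd hxs x hδ (half_pos hη)
  set r : ℝ := δ' / (2 * R) with hr
  have hr0 : 0 < r := by positivity
  set C : (Σ Q : ℕ, (Fin (Q + 1) → ℕ)) → Set (X →L[ℝ] ℝ) := fun J =>
    K ∩ {k | FlatAt (near K x δ) (ε / 2) (fun i => xs (J.2 i)) (η / 2) k} with hC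
  have hCWC : ∀ J, WC (C J) := fun J => hK.inter (FlatAt_WCl _ _ _ _)
  set A : Option (Σ Q : ℕ, (Fin (Q + 1) → ℕ)) → Set X := fun o =>
    match o with
    | none => {x' : X | r ≤ ‖x'‖}
    | some J => {x' : X | ∃ k ∈ C J, ∀ a ∈ K, a (x + x') ≤ k (x + x')} with hA
  have hAcl : ∀ o, IsClosed (A o) := by
    intro o
    rcases o with _ | J
    · exact isClosed_le continuous_const continuous_norm
    · exact closed_maximizer hR0 hR (hCWC J) inter_subset_left x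
  have hAU : (⋃ o, A o) = univ := by
    rw [eq_univ_iff_forall]
    intro x'
    rw [mem_iUnion]
    rcases le_or_gt r ‖x'‖ with h | h
    · exact ⟨none, h⟩
    obtain ⟨k, hk, hmax⟩ := hK.exists_max hne (x + x')
    have hkn : k ∈ near K x δ' := by
      refine ⟨hk, fun a ha => ?_⟩
      have hb : ∀ b ∈ K, |b x'| ≤ δ' / 2 := fun b hb => by
        calc |b x'| = ‖b x'‖ := rfl
          _ ≤ ‖b‖ * ‖x'‖ := b.le_opNorm _
          _ ≤ R * r := by gcongr; exact hR b hb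
          _ = δ' / 2 := by rw [hr]; field_simp
      have h1 := hmax a ha
      have h2 := (abs_le.mp (hb a ha)).1
      have h3 := (abs_le.mp (hb k hk)).2
      simp only [map_add] at h1
      linarith
    obtain ⟨J, hJ⟩ := hcov k hkn
    exact ⟨some J, k, ⟨hk, hJ⟩, hmax⟩
  have hdense := dense_iUnion_interior_of_closed hAcl hAU
  obtain ⟨x0, hx0, hx0b⟩ := hdense.exists_mem_open isOpen_ball ⟨(0 : X), mem_ball_self hr0⟩
  rw [mem_iUnion] at hx0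
  obtain ⟨o, ho⟩ := hx0
  rcases o with _ | J
  · exfalso
    have h0 : x0 ∈ A none := interior_subset ho
    have h1 : r ≤ ‖x0‖ := h0
    rw [mem_ball_zero_iff] at hx0b
    linarith
  rw [mem_interior_iff_mem_nhds, Metric.mem_nhds_iff] at ho
  obtain ⟨t, ht, hball⟩ := ho
  refine ⟨J, x + x0, t * (η / 4), by positivity, fun k hk => ?_⟩
  intro u v τ hτ
  -- find k_s in C J with k (u+v) ≤ k_s (u+v) + (η/2) ‖u+v‖
  have hks : ∃ ks ∈ C J, k (u + v) ≤ ks (u + v) + (η / 2) * ‖u + v‖ := by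
    rcases eq_or_ne (u + v) 0 with h0 | h0
    · obtain ⟨ks, hks, _⟩ := hball (mem_ball_self ht)
      refine ⟨ks, hks, ?_⟩
      rw [h0]; simp
    · set w := u + v with hw
      have hwn : 0 < ‖w‖ := norm_pos_iff.mpr h0
      set s : ℝ := t / (2 * ‖w‖) with hs
      have hs0 : 0 < s := by positivity
      have hmem : x0 + s • w ∈ ball x0 t := by
        rw [mem_ball, dist_eq_norm, add_sub_cancel_left, norm_smul, Real.norm_of_nonneg hs0.le, hs]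
        have : t / (2 * ‖w‖) * ‖w‖ = t / 2 := by field_simp
        rw [this]; linarith
      obtain ⟨ks, hks, hmax⟩ := hball hmem
      refine ⟨ks, hks, ?_⟩
      have h1 := hmax k hk.1
      have h2 := hk.2 ks hks.1
      simp only [map_add, map_smul, smul_eq_mul] at h1 h2
      have h3 : s * k w ≤ s * ks w + t * (η / 4) := by linarith
      have h4 : t * (η / 4) = s * ((η / 2) * ‖w‖) := by rw [hs]; field_simp; ring
      rw [h4, ← mul_add] at h3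
      exact le_of_mul_le_mul_left h3 hs0
  obtain ⟨ks, ⟨_, hks1⟩, hks2⟩ := hks
  obtain ⟨p, q, hpq, hle⟩ := hks1 u v τ hτ
  refine ⟨p, q, hpq, ?_⟩
  have h5 : ‖u + v‖ ≤ ‖u‖ + ‖v‖ := norm_add_le u v
  rw [map_add, map_add] at hks2
  have h6 : (η / 2) * ‖u + v‖ ≤ (η / 2) * (‖u‖ + ‖v‖) := by gcongr
  linarith

/-- Step 4: iterating the Baire step. -/
theorem flat_system [CompleteSpace X] {K : Set (X →L[ℝ] ℝ)} {ε R : ℝ} (hε : 0 < ε) (hK : WC K)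
    (hR0 : 0 < R) (hR : ∀ a ∈ K, ‖a‖ ≤ R) (hne : K.Nonempty)
    (hnd : ∀ f ∈ K, f ∈ closure (convexHull ℝ (K \ Metric.ball f ε)))
    {xs : ℕ → X} (hxs1 : ∀ j, ‖xs j‖ ≤ 1)
    (hxs : ∀ (h : X →L[ℝ] ℝ) (c : ℝ), c < ‖h‖ → ∃ j, c < h (xs j))
    (η : ℕ → ℝ) (hη : ∀ n, 0 < η n) :
    ∃ (T : ℕ → Set (X →L[ℝ] ℝ)) (Q : ℕ → ℕ) (y : (a : ℕ) → Fin (Q a + 1) → X),
      (∀ a, (T a).Nonempty) ∧ (∀ a, T a ⊆ K) ∧ (∀ a i, ‖y a i‖ ≤ 1) ∧
      ∀ a, ∀ k ∈ T (a + 1), FlatAt (T a) (ε / 2) (y a) (η a) k := by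
  have step : ∀ (n : ℕ) (s : X × {d : ℝ // 0 < d}), ∃ (J : (Σ Q : ℕ, (Fin (Q + 1) → ℕ)))
      (s' : X × {d : ℝ // 0 < d}), ∀ k ∈ near K s'.1 s'.2.1,
        FlatAt (near K s.1 s.2.1) (ε / 2) (fun i => xs (J.2 i)) (η n) k := by
    rintro n ⟨x, δ, hδ⟩
    obtain ⟨J, x1, δ1, hδ1, h⟩ := flat_step hε hK hR0 hR hne hnd hxs x hδ (hη n)
    exact ⟨J, ⟨x1, δ1, hδ1⟩, h⟩
  choose J nxt hnxt using step
  let s : ℕ → X × {d : ℝ // 0 < d} := fun n => Nat.rec (0, ⟨1, one_pos⟩) (fun n s => nxt n s) n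
  have hs : ∀ n, s (n + 1) = nxt n (s n) := fun n => rfl
  refine ⟨fun n => near K (s n).1 (s n).2.1, fun n => (J n (s n)).1,
    fun n i => xs ((J n (s n)).2 i), fun a => near_nonempty hK hne _ (s a).2.2.le,
    fun a k hk => hk.1, fun a i => hxs1 _, fun a k hk => ?_⟩
  refine hnxt a (s a) k ?_
  rw [← hs]
  exact hk

/-- a norming sequence in the unit ball -/
lemma exists_norming [TopologicalSpace.SeparableSpace X] :
    ∃ xs : ℕ → X, (∀ j, ‖xs j‖ ≤ 1) ∧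
      ∀ (h : X →L[ℝ] ℝ) (c : ℝ), c < ‖h‖ → ∃ j, c < h (xs j) := by
  have : Nonempty (closedBall (0 : X) 1) := ⟨⟨0, by simp⟩⟩
  have : SecondCountableTopology X := UniformSpace.secondCountable_of_separable X
  refine ⟨fun j => (TopologicalSpace.denseSeq (closedBall (0 : X) 1) j : X), fun j => ?_,
    fun h c hc => ?_⟩
  · have := (TopologicalSpace.denseSeq (closedBall (0 : X) 1) j).2
    rwa [mem_closedBall_zero_iff] at this
  · have h1 : ∃ z : X, ‖z‖ < 1 ∧ c < h z := by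
      rcases lt_or_ge c 0 with hc0 | hc0
      · exact ⟨0, by simp, by simpa using hc0⟩
      obtain ⟨z, hz1, hz2⟩ := ContinuousLinearMap.exists_lt_apply_of_lt_opNorm h hc
      rcases le_total 0 (h z) with h0 | h0
      · exact ⟨z, hz1, by rwa [Real.norm_of_nonneg h0] at hz2⟩
      · refine ⟨-z, by rwa [norm_neg], ?_⟩
        rw [Real.norm_of_nonpos h0] at hz2
        rwa [map_neg]
    obtain ⟨z, hz1, hz2⟩ := h1
    have hopen : IsOpen {w : closedBall (0 : X) 1 | c < h (w : X)} :=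
      isOpen_lt continuous_const (h.continuous.comp continuous_subtype_val)
    obtain ⟨j, hw2⟩ := (TopologicalSpace.denseRange_denseSeq
      (closedBall (0 : X) 1)).exists_mem_open hopen
      ⟨⟨z, mem_closedBall_zero_iff.mpr hz1.le⟩, hz2⟩
    exact ⟨j, hw2⟩

end Pool.Agent.H97.MP36cdb9
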